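import Pool.Agent.Work.MP_f1799f_co.LP.CA.Data
set_option linter.defProp false
namespace Pool.Agent.Work.MP_f1799f_co.LP.CA
noncomputable section
def ck0 : chkAll cl0 = true := by decide +kernel
def ck16 : chkAll cl16 = true := by decide +kernel
def ck32 : chkAll cl32 = true := by decide +kernel
def ck48 : chkAll cl48 = true := by decide +kernel
def ck64 : chkAll cl64 = true := by decide +kernel
def ck80 : chkAll cl80 = true := by decide +kernel
def ck96 : chkAll cl96 = true := by decide +kernel
def ck112 : chkAll cl112 = true := by decide +kernel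
def ck128 : chkAll cl128 = true := by decide +kernel
def ck144 : chkAll cl144 = true := by decide +kernel
def ck160 : chkAll cl160 = true := by decide +kernel
def ck176 : chkAll cl176 = true := by decide +kernel
def ck192 : chkAll cl192 = true := by decide +kernel
def ck208 : chkAll cl208 = true := by decide +kernel
def ck224 : chkAll cl224 = true := by decide +kernel
def ck240 : chkAll cl240 = true := by decide +kernel
theorem ckG0 : ∀ c ∈ clG0, chkAll c = true :=
  (List.forall_mem_cons.2 ⟨ck0,
    (List.forall_mem_cons.2 ⟨ck16,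
    (List.forall_mem_cons.2 ⟨ck32,
    (List.forall_mem_cons.2 ⟨ck48,
    (List.forall_mem_cons.2 ⟨ck64,
    (List.forall_mem_cons.2 ⟨ck80,
    (List.forall_mem_cons.2 ⟨ck96,
    (List.forall_mem_cons.2 ⟨ck112,
    (List.forall_mem_cons.2 ⟨ck128,
    (List.forall_mem_cons.2 ⟨ck144,
    (List.forall_mem_cons.2 ⟨ck160,
    (List.forall_mem_cons.2 ⟨ck176,
    (List.forall_mem_cons.2 ⟨ck192,
    (List.forall_mem_cons.2 ⟨ck208,
    (List.forall_mem_cons.2 ⟨ck224,
    (List.forall_mem_cons.2 ⟨ck240,
    (fun _ h => nomatch h)⟩)⟩)⟩)⟩)⟩)⟩)⟩)⟩)⟩)⟩)⟩)⟩)⟩)⟩)⟩)⟩)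
end
end Pool.Agent.Work.MP_f1799f_co.LP.CA
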