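import Pool.Agent.Work.MP_f1799f_co.LP.CA.Data
set_option linter.defProp false
namespace Pool.Agent.Work.MP_f1799f_co.LP.CA
noncomputable section
def ck4 : chkAll cl4 = true := by decide +kernel
def ck20 : chkAll cl20 = true := by decide +kernel
def ck36 : chkAll cl36 = true := by decide +kernel
def ck52 : chkAll cl52 = true := by decide +kernel
def ck68 : chkAll cl68 = true := by decide +kernel
def ck84 : chkAll cl84 = true := by decide +kernel
def ck100 : chkAll cl100 = true := by decide +kernel
def ck116 : chkAll cl116 = true := by decide +kernel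
def ck132 : chkAll cl132 = true := by decide +kernel
def ck148 : chkAll cl148 = true := by decide +kernel
def ck164 : chkAll cl164 = true := by decide +kernel
def ck180 : chkAll cl180 = true := by decide +kernel
def ck196 : chkAll cl196 = true := by decide +kernel
def ck212 : chkAll cl212 = true := by decide +kernel
def ck228 : chkAll cl228 = true := by decide +kernel
def ck244 : chkAll cl244 = true := by decide +kernel
theorem ckG4 : ∀ c ∈ clG4, chkAll c = true :=
  (List.forall_mem_cons.2 ⟨ck4,
    (List.forall_mem_cons.2 ⟨ck20,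
    (List.forall_mem_cons.2 ⟨ck36,
    (List.forall_mem_cons.2 ⟨ck52,
    (List.forall_mem_cons.2 ⟨ck68,
    (List.forall_mem_cons.2 ⟨ck84,
    (List.forall_mem_cons.2 ⟨ck100,
    (List.forall_mem_cons.2 ⟨ck116,
    (List.forall_mem_cons.2 ⟨ck132,
    (List.forall_mem_cons.2 ⟨ck148,
    (List.forall_mem_cons.2 ⟨ck164,
    (List.forall_mem_cons.2 ⟨ck180,
    (List.forall_mem_cons.2 ⟨ck196,
    (List.forall_mem_cons.2 ⟨ck212,
    (List.forall_mem_cons.2 ⟨ck228,
    (List.forall_mem_cons.2 ⟨ck244,
    (fun _ h => nomatch h)⟩)⟩)⟩)⟩)⟩)⟩)⟩)⟩)⟩)⟩)⟩)⟩)⟩)⟩)⟩)⟩)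
end
end Pool.Agent.Work.MP_f1799f_co.LP.CA
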