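import Pool.Agent.Work.MP_f1799f_co.LP.ObjC
import Pool.Agent.Work.MP_f1799f_co.DataT
import Pool.Agent.Work.MP_f1799f_co.DataC
import Pool.Agent.Work.MP_f1799f_co.LP.CA.DataV
import Pool.Agent.Work.MP_f1799f_co.LP.CA.DataR0
import Pool.Agent.Work.MP_f1799f_co.LP.CA.DataR1
import Pool.Agent.Work.MP_f1799f_co.LP.CA.DataR2
import Pool.Agent.Work.MP_f1799f_co.LP.CA.DataR3
namespace Pool.Agent.Work.MP_f1799f_co.LP.CA
noncomputable section

def vlook (s : Nat) : Nat × List Nat :=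
  List.rec (motive := fun _ => Nat × List Nat) (0, []) (fun e _ ih =>
    Bool.rec (motive := fun _ => Nat × List Nat) ih e.2 (Nat.beq e.1 s)) vcL
def vcf (s : Nat) : List Nat := (vlook s).2
def vbf (s : Nat) : Nat := (vlook s).1
def wdL : List (List (Nat × List (Nat × List Nat))) := [wd0, wd1, [], wd3, [], [], [], wd7]
def wdf (tau e : Nat) : Nat × List (Nat × List Nat) := nth (nth wdL [] tau) (0, []) e
def wff (tau e : Nat) : List Nat := wcols vcf (wdf tau e).2
def dff (tau e : Nat) : Nat := (wdf tau e).1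
def rwL : List (List Nat) := [rw0, rw1, rw2, rw3, rw4, rw5, rw6, rw7, rw8, rw9, rw10, rw11, rw12,
  rw13, rw14, rw15, rw16, rw17, rw18, rw19, rw20, rw21, rw22, rw23, rw24, rw25, rw26, rw27, rw28,
  rw29, rw30, rw31]
def rowff (g : Nat) : Nat := nth (nth rwL [] (Nat.div g 32)) 0 (Nat.mod g 32)
def utf (r : Nat) : Nat := utab wff dff rowff 0 r
def ff (t : Nat) : Nat := nth fL 0 t
def kcf : Nat := Nat.sub (Nat.sub (Nat.pow 2 55) 1)
  (Nat.add cbound (Nat.mul 105 (Nat.add cmax k3)))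
def chkAll (l : List (Nat × List Nat)) : Bool := allL l fun e => chkR2 utf tuL ff kcf e.1 e.2
def rowP (g : Nat) : Nat → Bool := fun x => Nat.beq (rowff g) x

end
end Pool.Agent.Work.MP_f1799f_co.LP.CA
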