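import Pool.Agent.Work.MP_f1799f_co.Ver0
import Pool.Agent.Work.MP_f1799f_co.LP.CA.Data
set_option linter.defProp false
namespace Pool.Agent.Work.MP_f1799f_co.LP.CA
noncomputable section
def v_r8 : allN 64 (fun i => forceB (64 * 8 + i) fun g => Nat.beq (rowff g) (rowC gcL g)) =
    true := by decide +kernel
def v_r9 : allN 64 (fun i => forceB (64 * 9 + i) fun g => Nat.beq (rowff g) (rowC gcL g)) =
    true := by decide +kernel
def v_r10 : allN 64 (fun i => forceB (64 * 10 + i) fun g => Nat.beq (rowff g) (rowC gcL g)) =
    true := by decide +kernel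
def v_r11 : allN 64 (fun i => forceB (64 * 11 + i) fun g => Nat.beq (rowff g) (rowC gcL g)) =
    true := by decide +kernel
def v_r12 : allN 64 (fun i => forceB (64 * 12 + i) fun g => Nat.beq (rowff g) (rowC gcL g)) =
    true := by decide +kernel
def v_r13 : allN 64 (fun i => forceB (64 * 13 + i) fun g => Nat.beq (rowff g) (rowC gcL g)) =
    true := by decide +kernel
def v_r14 : allN 64 (fun i => forceB (64 * 14 + i) fun g => Nat.beq (rowff g) (rowC gcL g)) =
    true := by decide +kernel
def v_r15 : allN 64 (fun i => forceB (64 * 15 + i) fun g => Nat.beq (rowff g) (rowC gcL g)) =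
    true := by decide +kernel
end
end Pool.Agent.Work.MP_f1799f_co.LP.CA
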